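import Pool.Agent.Helper36.SPR.St5

/-!
# Project SPR3 (MP_343216_nt): module CE (conditional expectation of a block)
-/

set_option autoImplicit false

namespace Pool.Agent.Helper2.SPR

open Finset Pool.Agent.Helper36.SPR

namespace CE

lemma two_ne {p : ℕ} (_hp : p.Prime) (h3 : 3 ≤ p) : (2 : ZMod p) ≠ 0 := by
  intro h0
  have : ((2 : ℕ) : ZMod p) = 0 := by exact_mod_cast h0
  rw [ZMod.natCast_eq_zero_iff] at this
  exact absurd (Nat.le_of_dvd (by norm_num) this) (by omega)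

/-- `2 ^ V = 1` modulo a prime `p ≥ 3` with `(p - 1) ∣ V` -/
lemma fermat {p V : ℕ} (hp : p.Prime) (h3 : 3 ≤ p) (h : (p - 1) ∣ V) : (2 : ZMod p) ^ V = 1 := by
  have : Fact p.Prime := ⟨hp⟩
  obtain ⟨t, rfl⟩ := h
  rw [pow_mul, ZMod.pow_card_sub_one_eq_one (two_ne hp h3), one_pow]

lemma one_of_dvd {n V : ℕ} (h : n ∣ 2 ^ V - 1) : (2 : ZMod n) ^ V = 1 := by
  have h1 : 1 ≤ 2 ^ V := Nat.one_le_two_pow
  have h2 : (((2 ^ V - 1 : ℕ)) : ZMod n) = 0 := by rw [ZMod.natCast_eq_zero_iff]; exact h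
  rw [Nat.cast_sub h1] at h2
  push_cast at h2
  exact sub_eq_zero.mp h2

lemma dvd_of_one {n V : ℕ} (h : (2 : ZMod n) ^ V = 1) : n ∣ 2 ^ V - 1 := by
  have h1 : 1 ≤ 2 ^ V := Nat.one_le_two_pow
  rw [← ZMod.natCast_eq_zero_iff, Nat.cast_sub h1]
  push_cast
  rw [h, sub_self]

lemma fermat2 {p q V : ℕ} (hp : p.Prime) (hq : q.Prime) (hp3 : 3 ≤ p) (hq3 : 3 ≤ q) (hpq : p ≠ q)
    (h : (p - 1) ∣ V) (h' : (q - 1) ∣ V) : (2 : ZMod (p * q)) ^ V = 1 := by
  apply one_of_dvd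
  exact ((Nat.coprime_primes hp hq).2 hpq).mul_dvd_of_dvd_of_dvd
    (dvd_of_one (fermat hp hp3 h)) (dvd_of_one (fermat hq hq3 h'))

/-- the number whose divisibility is tested -/
def nn {k : ℕ} (W V : ℕ) (s₀ : Fin k → ℕ) (v : Fin k → Fin V) : ℕ :=
  1 + ∑ i, 2 ^ (s₀ i + W * (v i : ℕ))

/-- the probability -/
noncomputable def pr (k W V : ℕ) (s₀ : Fin k → ℕ) (n : ℕ) : ℝ :=
  prbv n V k ((2 : ZMod n) ^ W) (fun i => (2 : ZMod n) ^ (s₀ i))

lemma ind_sum (k W V n : ℕ) (s₀ : Fin k → ℕ) (hV : 0 < V) :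
    (∑ v : Fin k → Fin V, if n ∣ nn W V s₀ v then (1 : ℝ) else 0) =
      (V : ℝ) ^ k * pr k W V s₀ n := by
  have hV' : (0 : ℝ) < V := by exact_mod_cast hV
  rw [Finset.sum_boole, pr, prbv, mul_div_cancel₀ _ (by positivity)]
  congr 2
  ext v
  rw [Finset.mem_filter, Finset.mem_filter, nn, ← ZMod.natCast_eq_zero_iff]
  push_cast
  simp only [pow_add, pow_mul]

/-- second moment bound, abstract -/
lemma final (P : Finset ℕ) (hP : ∀ p ∈ P, 100 ≤ p) (e : ℕ → ℝ) (e2 : ℕ → ℕ → ℝ)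
    (h1 : ∀ p ∈ P, |e p - 1 / p| ≤ 1 / (p : ℝ) ^ 2)
    (h2 : ∀ p ∈ P, ∀ q ∈ P, p ≠ q → e2 p q ≤ (103 / 100) * ((1 / (p : ℝ)) * (1 / q)))
    (h3 : ∀ p ∈ P, e2 p p = e p)
    (hs : 4 ≤ ∑ p ∈ P, (1 : ℝ) / p) :
    1 - 2 / (∑ p ∈ P, (1 : ℝ) / p) * (∑ p ∈ P, e p) +
      1 / (∑ p ∈ P, (1 : ℝ) / p) ^ 2 * (∑ p ∈ P, ∑ q ∈ P, e2 p q) ≤ 1 / 2 := by
  set s := ∑ p ∈ P, (1 : ℝ) / p with hsdef
  have hs0 : 0 < s := by linarith
  have hinv : ∀ p ∈ P, 1 / (p : ℝ) ^ 2 ≤ 1 / 100 * (1 / (p : ℝ)) := by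
    intro p hp
    have hp' : (100 : ℝ) ≤ p := by exact_mod_cast hP p hp
    have hp0 : (0 : ℝ) < p := by linarith
    rw [one_div_mul_one_div, sq]
    exact one_div_le_one_div_of_le (by positivity) (mul_le_mul_of_nonneg_right hp' hp0.le)
  have hE : 99 / 100 * s ≤ ∑ p ∈ P, e p := by
    rw [hsdef, Finset.mul_sum]
    refine Finset.sum_le_sum fun p hp => ?_
    have := (abs_le.1 (h1 p hp)).1
    have := hinv p hp
    linarith
  have hE2 : ∑ p ∈ P, ∑ q ∈ P, e2 p q ≤ 103 / 100 * s ^ 2 + 101 / 100 * s := by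
    have key : ∀ p ∈ P, ∑ q ∈ P, e2 p q ≤ 103 / 100 * (1 / (p : ℝ)) * s + 101 / 100 * (1 / (p : ℝ)) := by
      intro p hp
      have : ∀ q ∈ P, e2 p q ≤ 103 / 100 * (1 / (p : ℝ)) * (1 / (q : ℝ)) +
          (if p = q then 101 / 100 * (1 / (p : ℝ)) else 0) := by
        intro q hq
        by_cases hpq : p = q
        · subst hpq
          rw [h3 p hp, if_pos rfl]
          have a1 := (abs_le.1 (h1 p hp)).2
          have a2 := hinv p hp
          have a3 : 0 ≤ 103 / 100 * (1 / (p : ℝ)) * (1 / (p : ℝ)) := by positivity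
          linarith
        · rw [if_neg hpq]
          have := h2 p hp q hq hpq
          linarith
      refine (Finset.sum_le_sum this).trans ?_
      rw [Finset.sum_add_distrib, Finset.sum_ite_eq, if_pos hp, ← Finset.mul_sum]
    refine (Finset.sum_le_sum key).trans ?_
    rw [Finset.sum_add_distrib, ← Finset.sum_mul, ← Finset.mul_sum, ← Finset.mul_sum, ← hsdef]
    apply le_of_eq
    ring
  have b1 : 2 / s * (∑ p ∈ P, e p) ≥ 2 * (99 / 100) := by
    have : 2 / s * (99 / 100 * s) ≤ 2 / s * (∑ p ∈ P, e p) :=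
      mul_le_mul_of_nonneg_left hE (by positivity)
    have e1 : 2 / s * (99 / 100 * s) = 2 * (99 / 100) := by field_simp
    linarith
  have b2 : 1 / s ^ 2 * (∑ p ∈ P, ∑ q ∈ P, e2 p q) ≤ 103 / 100 + 101 / 400 := by
    have : 1 / s ^ 2 * (∑ p ∈ P, ∑ q ∈ P, e2 p q) ≤ 1 / s ^ 2 * (103 / 100 * s ^ 2 + 101 / 100 * s) :=
      mul_le_mul_of_nonneg_left hE2 (by positivity)
    have e1 : 1 / s ^ 2 * (103 / 100 * s ^ 2 + 101 / 100 * s) = 103 / 100 + 101 / 100 * (1 / s) := by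
      field_simp
    have e3 : 1 / s ≤ 1 / 4 := one_div_le_one_div_of_le (by norm_num) hs
    linarith
  linarith

end CE

open CE in
theorem hCE (hPA3 : StPA3) (hPB3 : StPB3) : StCE := by
  obtain ⟨k₁, p₁, hA⟩ := hPA3
  obtain ⟨k₂, p₂, hB⟩ := hPB3
  refine ⟨max k₁ k₂, max (max p₁ p₂) 100, ?_⟩
  intro k W V P s₀ hk hV hP hs
  have hk1 : k₁ ≤ k := (le_max_left _ _).trans hk
  have hk2 : k₂ ≤ k := (le_max_right _ _).trans hk
  have hV' : (0 : ℝ) < V := by exact_mod_cast hV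
  have hprime : ∀ p ∈ P, p.Prime := fun p hp => (hP p hp).1
  have h100 : ∀ p ∈ P, 100 ≤ p := fun p hp => (le_max_right _ _).trans (hP p hp).2.1
  have hge1 : ∀ p ∈ P, p₁ ≤ p := fun p hp =>
    ((le_max_left _ _).trans (le_max_left _ _)).trans (hP p hp).2.1
  have hge2 : ∀ p ∈ P, p₂ ≤ p := fun p hp =>
    ((le_max_right _ _).trans (le_max_left _ _)).trans (hP p hp).2.1
  have hdiv : ∀ p ∈ P, (p - 1) ∣ V := fun p hp => (hP p hp).2.2.1
  have hord : ∀ p ∈ P, (p : ℝ) ^ (1 / 6 : ℝ) ≤ orderOf ((2 : ZMod p) ^ W) :=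
    fun p hp => (hP p hp).2.2.2
  -- one prime
  have h1 : ∀ p ∈ P, |pr k W V s₀ p - 1 / p| ≤ 1 / (p : ℝ) ^ 2 := by
    intro p hp
    have : NeZero p := ⟨(hprime p hp).ne_zero⟩
    have : Fact p.Prime := ⟨hprime p hp⟩
    have h3 : 3 ≤ p := le_trans (by norm_num) (h100 p hp)
    refine hA p V k _ _ hk1 (hge1 p hp) (hprime p hp) hV ?_ (hord p hp) ?_
    · rw [← pow_mul, mul_comm W V, pow_mul, fermat (hprime p hp) h3 (hdiv p hp), one_pow]
    · intro i
      exact pow_ne_zero _ (two_ne (hprime p hp) h3)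
  -- two primes
  have h2' : ∀ p ∈ P, ∀ q ∈ P, p < q →
      pr k W V s₀ (p * q) ≤ (103 / 100) * ((1 / (p : ℝ)) * (1 / q)) := by
    intro p hp q hq hpq
    have : NeZero p := ⟨(hprime p hp).ne_zero⟩
    have : NeZero q := ⟨(hprime q hq).ne_zero⟩
    have hp3 : 3 ≤ p := le_trans (by norm_num) (h100 p hp)
    have hq3 : 3 ≤ q := le_trans (by norm_num) (h100 q hq)
    have hone : (2 : ZMod (p * q)) ^ V = 1 :=
      fermat2 (hprime p hp) (hprime q hq) hp3 hq3 hpq.ne (hdiv p hp) (hdiv q hq)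
    have hu : IsUnit (2 : ZMod (p * q)) := IsUnit.of_pow_eq_one hone hV.ne'
    have c1 : (ZMod.cast ((2 : ZMod (p * q)) ^ W) : ZMod p) = 2 ^ W := by
      have := map_pow (ZMod.castHom (dvd_mul_right p q) (ZMod p)) (2 : ZMod (p * q)) W
      rw [map_ofNat] at this
      exact this
    have c2 : (ZMod.cast ((2 : ZMod (p * q)) ^ W) : ZMod q) = 2 ^ W := by
      have := map_pow (ZMod.castHom (dvd_mul_left q p) (ZMod q)) (2 : ZMod (p * q)) W
      rw [map_ofNat] at this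
      exact this
    have := hB p q V k ((2 : ZMod (p * q)) ^ W) (fun i => (2 : ZMod (p * q)) ^ (s₀ i)) hk2
      (hge2 p hp) (hprime p hp) (hprime q hq) hpq hV
      (by rw [← pow_mul, mul_comm W V, pow_mul, hone, one_pow])
      (by rw [c1]; exact hord p hp) (by rw [c2]; exact hord q hq) (fun i => hu.pow _)
    refine this.trans ?_
    have hp' : (100 : ℝ) ≤ p := by exact_mod_cast h100 p hp
    have hq' : (100 : ℝ) ≤ q := by exact_mod_cast h100 q hq
    have hp0 : (0 : ℝ) < p := by linarith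
    have hq0 : (0 : ℝ) < q := by linarith
    have e1 : 1 / ((p : ℝ) * q) = 1 / (p : ℝ) * (1 / q) := by rw [one_div_mul_one_div]
    have e2 : 1 + 3 / (p : ℝ) ≤ 103 / 100 := by
      have : 3 / (p : ℝ) ≤ 3 / 100 := div_le_div_of_nonneg_left (by norm_num) (by norm_num) hp'
      linarith
    rw [e1, mul_comm]
    exact mul_le_mul_of_nonneg_right e2 (by positivity)
  have hfin := final P h100 (pr k W V s₀)
    (fun p q => if p = q then pr k W V s₀ p else pr k W V s₀ (p * q)) h1 ?_ ?_ hs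
  · refine le_trans (le_of_eq ?_) hfin
    set s := ∑ p ∈ P, (1 : ℝ) / p with hsdef
    obtain ⟨X, hXd⟩ : ∃ X : (Fin k → Fin V) → ℝ,
        ∀ v, X v = ∑ p ∈ P, if p ∣ nn W V s₀ v then (1 : ℝ) else 0 := ⟨_, fun v => rfl⟩
    have hfb : ∀ v : Fin k → Fin V, fb k P (fun i => s₀ i + W * (v i : ℕ)) =
        1 - 2 / s * X v + 1 / s ^ 2 * X v ^ 2 := by
      intro v
      have : (Xb k P (fun i => s₀ i + W * (v i : ℕ)) : ℝ) = X v := by
        rw [hXd, Finset.sum_boole]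
        rfl
      rw [fb, this, ← hsdef]
      have hs0 : s ≠ 0 := by linarith [hs]
      field_simp
      ring
    have hsum1 : ∑ v, X v = (V : ℝ) ^ k * ∑ p ∈ P, pr k W V s₀ p := by
      simp only [hXd]
      rw [Finset.sum_comm, Finset.mul_sum]
      exact Finset.sum_congr rfl fun p _ => ind_sum k W V p s₀ hV
    have hsum2 : ∑ v, X v ^ 2 = (V : ℝ) ^ k * ∑ p ∈ P, ∑ q ∈ P,
        (if p = q then pr k W V s₀ p else pr k W V s₀ (p * q)) := by
      have e1 : ∀ v, X v ^ 2 = ∑ p ∈ P, ∑ q ∈ P,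
          (if (if p = q then p else p * q) ∣ nn W V s₀ v then (1 : ℝ) else 0) := by
        intro v
        rw [sq, hXd, Finset.sum_mul_sum]
        refine Finset.sum_congr rfl fun p hp => Finset.sum_congr rfl fun q hq => ?_
        by_cases hpq : p = q
        · subst hpq
          simp
        · rw [if_neg hpq]
          have hco : Nat.Coprime p q := (Nat.coprime_primes (hprime p hp) (hprime q hq)).2 hpq
          have : p * q ∣ nn W V s₀ v ↔ p ∣ nn W V s₀ v ∧ q ∣ nn W V s₀ v := by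
            constructor
            · intro h
              exact ⟨(Dvd.intro _ rfl).trans h, (Dvd.intro_left _ rfl).trans h⟩
            · rintro ⟨a, b⟩
              exact hco.mul_dvd_of_dvd_of_dvd a b
          simp only [this]
          by_cases a : p ∣ nn W V s₀ v <;> by_cases b : q ∣ nn W V s₀ v <;> simp [a, b]
      simp only [e1]
      rw [Finset.sum_comm, Finset.mul_sum]
      refine Finset.sum_congr rfl fun p hp => ?_
      rw [Finset.sum_comm, Finset.mul_sum]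
      refine Finset.sum_congr rfl fun q hq => ?_
      rw [ind_sum k W V _ s₀ hV]
      by_cases hpq : p = q <;> simp [hpq]
    have hcard : ((Fintype.card (Fin k → Fin V) : ℕ) : ℝ) = (V : ℝ) ^ k := by simp
    rw [Av, Finset.sum_congr rfl fun v _ => hfb v, Finset.sum_add_distrib,
      Finset.sum_sub_distrib, ← Finset.mul_sum, ← Finset.mul_sum, Finset.sum_const,
      Finset.card_univ, nsmul_eq_mul, hcard, hsum1, hsum2]
    have hVk : (V : ℝ) ^ k ≠ 0 := by positivity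
    field_simp
  · intro p hp q hq hpq
    simp only [if_neg hpq]
    rcases lt_or_gt_of_ne hpq with h | h
    · exact h2' p hp q hq h
    · have := h2' q hq p hp h
      rw [mul_comm q p, mul_comm (1 / (q : ℝ))] at this
      exact this
  · intro p _
    simp

end Pool.Agent.Helper2.SPR
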