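import Pool.Agent.Helper36.SPR.St5

/-!
# Project SPR3 (MP_343216_nt): module IT (iteration over the blocks)
-/

set_option autoImplicit false

namespace Pool.Agent.Helper2.SPR

open Finset Pool.Agent.Helper36.SPR

namespace IT

/-- splitting of the coordinates -/
def eqv (V W k : ℕ) : (Fin k → Fin W) × (Fin k → Fin V) ≃ (Fin k → Fin (V * W)) :=
  (Equiv.prodComm _ _).trans
    ((Equiv.arrowProdEquivProdArrow (Fin k) (fun _ => Fin V) (fun _ => Fin W)).symm.trans
      (Equiv.arrowCongr (Equiv.refl _) finProdFinEquiv))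

lemma eqv_apply (V W k : ℕ) (s : Fin k → Fin W) (u : Fin k → Fin V) (i : Fin k) :
    ((eqv V W k (s, u) i : Fin (V * W)) : ℕ) = s i + W * u i := by
  simp [eqv, finProdFinEquiv]

lemma sum_split (V W k : ℕ) (F : (Fin k → ℕ) → ℝ) :
    ∑ v : Fin k → Fin (V * W), F (fun i => (v i : ℕ)) =
      ∑ s : Fin k → Fin W, ∑ u : Fin k → Fin V, F (fun i => (s i : ℕ) + W * (u i : ℕ)) := by
  rw [← (eqv V W k).sum_comp, Fintype.sum_prod_type]
  refine Finset.sum_congr rfl fun s _ => Finset.sum_congr rfl fun u _ => ?_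
  exact congrArg F (funext fun i => eqv_apply V W k s u i)

lemma two_pow_shift {p W : ℕ} (hp : p.Prime) (h3 : 3 ≤ p) (h : (p - 1) ∣ W) (s u : ℕ) :
    (2 : ZMod p) ^ (s + W * u) = 2 ^ s := by
  have : Fact p.Prime := ⟨hp⟩
  have h2 : (2 : ZMod p) ≠ 0 := by
    intro h0
    have : ((2 : ℕ) : ZMod p) = 0 := by exact_mod_cast h0
    rw [ZMod.natCast_eq_zero_iff] at this
    exact absurd (Nat.le_of_dvd (by norm_num) this) (by omega)
  obtain ⟨t, ht⟩ := h
  have h1 : (2 : ZMod p) ^ (p - 1) = 1 := ZMod.pow_card_sub_one_eq_one h2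
  rw [pow_add, ht, mul_assoc, pow_mul, h1, one_pow, mul_one]

lemma dvd_iff_zmod {p k : ℕ} (v : Fin k → ℕ) :
    p ∣ 1 + ∑ i, 2 ^ (v i) ↔ 1 + ∑ i, (2 : ZMod p) ^ (v i) = 0 := by
  rw [← ZMod.natCast_eq_zero_iff]
  push_cast
  rfl

lemma Xb_shift (k W : ℕ) (B : Finset ℕ) (hB : ∀ p ∈ B, p.Prime ∧ 3 ≤ p ∧ (p - 1) ∣ W)
    (s u : Fin k → ℕ) : Xb k B (fun i => s i + W * u i) = Xb k B s := by
  unfold Xb
  congr 1
  refine Finset.filter_congr fun p hp => ?_
  obtain ⟨h1, h2, h3⟩ := hB p hp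
  rw [dvd_iff_zmod, dvd_iff_zmod]
  simp only [two_pow_shift h1 h2 h3]

lemma fb_nonneg (k : ℕ) (B : Finset ℕ) (v : Fin k → ℕ) : 0 ≤ fb k B v := sq_nonneg _

lemma Gb_nonneg (k : ℕ) (B : ℕ → Finset ℕ) (J : ℕ) (v : Fin k → ℕ) : 0 ≤ Gb k B J v :=
  Finset.prod_nonneg fun _ _ => fb_nonneg _ _ _

lemma Gb_shift (k J : ℕ) (B : ℕ → Finset ℕ) (hB : ∀ j < J, ∀ p ∈ B j, p.Prime ∧ 3 ≤ p)
    (s u : Fin k → ℕ) : Gb k B J (fun i => s i + Wb B J * u i) = Gb k B J s := by
  unfold Gb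
  refine Finset.prod_congr rfl fun j hj => ?_
  unfold fb
  rw [Xb_shift]
  intro p hp
  obtain ⟨h1, h2⟩ := hB j (Finset.mem_range.mp hj) p hp
  refine ⟨h1, h2, ?_⟩
  exact (Finset.dvd_prod_of_mem (fun p => p - 1) hp).trans
    (Finset.dvd_prod_of_mem (fun i => ∏ p ∈ B i, (p - 1)) hj)

end IT

open IT in
theorem hIT (hCE : StCE) : StIT := by
  obtain ⟨k₀, y₀, h⟩ := hCE
  refine ⟨k₀, max y₀ 3, ?_⟩
  intro k J B hk hB
  induction J with
  | zero =>
    have : Wb B 0 = 1 := by simp [Wb]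
    rw [this]
    simp [Av, Gb]
  | succ J ih =>
    have ih' := ih (fun j hj => hB j (Nat.lt_succ_of_lt hj))
    obtain ⟨hp, hs⟩ := hB J (Nat.lt_succ_self J)
    set V := ∏ p ∈ B J, (p - 1) with hV
    set W := Wb B J with hW
    have hWV : Wb B (J + 1) = V * W := by
      rw [Wb, Finset.prod_range_succ, ← hV, mul_comm]
      rfl
    have hV0 : 0 < V := by
      refine Finset.prod_pos fun p hpB => ?_
      have := (hp p hpB).1.two_le
      omega
    have hG : ∀ j < J, ∀ p ∈ B j, p.Prime ∧ 3 ≤ p := by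
      intro j hj p hpB
      obtain ⟨h1, h2, _⟩ := (hB j (Nat.lt_succ_of_lt hj)).1 p hpB
      exact ⟨h1, (le_max_right _ _).trans h2⟩
    have hin : ∀ s : Fin k → Fin W, ∑ u : Fin k → Fin V,
        Gb k B (J + 1) (fun i => (s i : ℕ) + W * (u i : ℕ)) ≤
          Gb k B J (fun i => (s i : ℕ)) * ((V : ℝ) ^ k * (1 / 2)) := by
      intro s
      have e : ∀ u : Fin k → Fin V, Gb k B (J + 1) (fun i => (s i : ℕ) + W * (u i : ℕ)) =
          Gb k B J (fun i => (s i : ℕ)) * fb k (B J) (fun i => (s i : ℕ) + W * (u i : ℕ)) := by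
        intro u
        rw [Gb, Finset.prod_range_succ]
        congr 1
        exact Gb_shift k J B hG (fun i => (s i : ℕ)) (fun i => (u i : ℕ))
      rw [Finset.sum_congr rfl fun u _ => e u, ← Finset.mul_sum]
      refine mul_le_mul_of_nonneg_left ?_ (Gb_nonneg _ _ _ _)
      have hc := h k W V (B J) (fun i => (s i : ℕ)) hk hV0 ?_ hs
      · rw [Av, div_le_iff₀ (by positivity)] at hc
        rw [mul_comm]
        exact hc
      · intro p hpB
        obtain ⟨h1, h2, h3⟩ := hp p hpB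
        exact ⟨h1, (le_max_left _ _).trans h2, Finset.dvd_prod_of_mem (fun p => p - 1) hpB, h3⟩
    rw [hWV, Av, sum_split V W k (Gb k B (J + 1))]
    have hle := Finset.sum_le_sum (s := Finset.univ) fun s _ => hin s
    rw [← Finset.sum_mul] at hle
    have hVk : (0 : ℝ) < (V : ℝ) ^ k := by positivity
    calc (∑ s : Fin k → Fin W, ∑ u : Fin k → Fin V,
          Gb k B (J + 1) (fun i => (s i : ℕ) + W * (u i : ℕ))) / ((V * W : ℕ) : ℝ) ^ k
        ≤ ((∑ s : Fin k → Fin W, Gb k B J (fun i => (s i : ℕ))) * ((V : ℝ) ^ k * (1 / 2))) /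
            ((V * W : ℕ) : ℝ) ^ k := by
          refine div_le_div_of_nonneg_right hle (by positivity)
      _ = (1 / 2) * Av W k (Gb k B J) := by
          rw [Av]
          push_cast
          rw [mul_pow]
          rcases eq_or_ne ((W : ℝ) ^ k) 0 with h0 | h0
          · rw [h0]; simp
          · field_simp
      _ ≤ (1 / 2) * (1 / 2 : ℝ) ^ J := by linarith
      _ = (1 / 2 : ℝ) ^ (J + 1) := by ring

end Pool.Agent.Helper2.SPR
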