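import Pool.Agent.Helper36.SPR.St

set_option autoImplicit false

namespace Pool.Agent.Helper2.SPR

open Pool.Agent.Helper36.SPR
open Finset
open scoped Pointwise

theorem hPV : StPV := by
  intro n _ B hB hu
  classical
  by_cases hall : ∀ ξ : ZMod n, ∃ a ∈ B - B, ∃ b ∈ B - B, IsUnit b ∧ a = ξ * b
  · exact Or.inl hall
  right
  push Not at hall
  obtain ⟨ξ₀, hξ₀⟩ := hall
  let P : ZMod n → Prop := fun ξ => ∃ a ∈ B - B, ∃ b ∈ B - B, IsUnit b ∧ a = ξ * b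
  have hex : ∃ m : ℕ, ¬ P (m : ZMod n) := by
    refine ⟨ξ₀.val, ?_⟩
    rintro ⟨a, ha, b, hb, hub, hab⟩
    rw [ZMod.natCast_zmod_val] at hab
    exact hξ₀ a ha b hb hub hab
  obtain ⟨m, hm, hmin⟩ : ∃ m : ℕ, ¬ P (m : ZMod n) ∧ ∀ l < m, P (l : ZMod n) :=
    ⟨Nat.find hex, Nat.find_spec hex, fun l hl => not_not.mp (Nat.find_min hex hl)⟩
  obtain ⟨x, hx, y, hy, hxy⟩ := Finset.one_lt_card.mp (by omega : 1 < B.card)
  have hP0 : P 0 :=
    ⟨0, Finset.mem_sub.mpr ⟨x, hx, x, hx, sub_self x⟩, x - y,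
      Finset.mem_sub.mpr ⟨x, hx, y, hy, rfl⟩, hu x hx y hy hxy, by rw [zero_mul]⟩
  have hm0 : m ≠ 0 := by
    rintro rfl
    exact hm (by simpa using hP0)
  obtain ⟨k, rfl⟩ : ∃ k, m = k + 1 := ⟨m - 1, by omega⟩
  obtain ⟨a, ha, b, hb, hub, hab⟩ := hmin k (by omega)
  refine ⟨a, ha, b, hb, hub, ?_⟩
  rw [← Finset.card_product]
  apply Finset.card_le_card_of_injOn (fun x : ZMod n × ZMod n => b * x.1 + (a + b) * x.2)
  · rintro ⟨u, v⟩ huv
    have h := Finset.mem_product.mp (Finset.mem_coe.mp huv)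
    apply Finset.mem_coe.mpr
    exact Finset.add_mem_add (Finset.mem_image.mpr ⟨u, h.1, rfl⟩)
      (Finset.mem_image.mpr ⟨v, h.2, rfl⟩)
  · rintro ⟨u, v⟩ huv ⟨u', v'⟩ huv' heq
    have h := Finset.mem_product.mp (Finset.mem_coe.mp huv)
    have h' := Finset.mem_product.mp (Finset.mem_coe.mp huv')
    have heq' : b * u + (a + b) * v = b * u' + (a + b) * v' := heq
    have e1 : b * (u - u') = b * (((k + 1 : ℕ) : ZMod n) * (v' - v)) := by
      rw [hab] at heq'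
      push_cast
      linear_combination heq'
    have e2 : u - u' = ((k + 1 : ℕ) : ZMod n) * (v' - v) := hub.mul_left_cancel e1
    by_cases hv : v' = v
    · subst hv
      rw [sub_self, mul_zero] at e2
      rw [sub_eq_zero.mp e2]
    · exact absurd ⟨u - u', Finset.mem_sub.mpr ⟨u, h.1, u', h'.1, rfl⟩, v' - v,
        Finset.mem_sub.mpr ⟨v', h'.2, v, h.2, rfl⟩, hu v' h'.2 v h.2 hv, e2⟩ hm

end Pool.Agent.Helper2.SPR
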