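import Pool.Agent.Helper36.SPR.St

set_option autoImplicit false

namespace Pool.Agent.Helper2.SPR

open Pool.Agent.Helper36.SPR
open Finset
open scoped Pointwise

theorem hRT : StRT := by
  intro n _ S M hS hadd hmul
  classical
  have hSc : (0 : ℝ) < S.card := by exact_mod_cast hS.card_pos
  have hM1 : 1 ≤ M := by
    have h1 : S.card ≤ (S / S).card := by
      obtain ⟨s, hs⟩ := hS
      exact Finset.card_le_card_of_injOn (fun x => x / s)
        (fun x hx => Finset.mem_coe.mpr (Finset.div_mem_div (Finset.mem_coe.mp hx) hs))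
        (fun x _ y _ h => div_left_injective h)
    have h2 : (S.card : ℝ) ≤ M * S.card := le_trans (by exact_mod_cast h1) hmul
    by_contra hcon
    push Not at hcon
    nlinarith
  let N : (ZMod n)ˣ → ℕ := fun c => (S.filter (fun s => c * s ∈ S)).card
  -- the sum of the numbers of representations
  have hsum : ∑ c ∈ S / S, N c = S.card * S.card := by
    rw [← Finset.card_product]
    rw [Finset.card_eq_sum_card_fiberwise (f := fun x : (ZMod n)ˣ × (ZMod n)ˣ => x.2 / x.1)
      (t := S / S)]
    · refine Finset.sum_congr rfl fun c _ => ?_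
      apply Finset.card_bij (fun s _ => ((s, c * s) : (ZMod n)ˣ × (ZMod n)ˣ))
      · intro s hs
        rw [Finset.mem_filter] at hs ⊢
        refine ⟨Finset.mem_product.mpr ⟨hs.1, hs.2⟩, ?_⟩
        show c * s / s = c
        rw [mul_div_assoc, div_self', mul_one]
      · intro s _ s' _ h
        exact (Prod.mk.inj h).1
      · rintro ⟨s, s'⟩ h
        rw [Finset.mem_filter, Finset.mem_product] at h
        have h2 : s' / s = c := h.2
        have h3 : c * s = s' := by rw [← h2, div_mul_cancel]
        refine ⟨s, Finset.mem_filter.mpr ⟨h.1.1, by rw [h3]; exact h.1.2⟩, ?_⟩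
        rw [h3]
    · rintro ⟨s, s'⟩ h
      have h := Finset.mem_product.mp (Finset.mem_coe.mp h)
      exact Finset.mem_coe.mpr (Finset.div_mem_div h.2 h.1)
  have hNle : ∀ c, N c ≤ S.card := fun c => Finset.card_filter_le _ _
  let B := (S / S).filter (fun c => (S.card : ℝ) ≤ 2 * M * N c)
  have hBS : (S.card : ℝ) ≤ 2 * B.card := by
    have h1 : ∑ c ∈ S / S, (N c : ℝ) = (S.card : ℝ) * S.card := by exact_mod_cast hsum
    have h2 := Finset.sum_filter_add_sum_filter_not (S / S)
      (fun c => (S.card : ℝ) ≤ 2 * M * N c) (fun c => (N c : ℝ))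
    have h3 : ∑ c ∈ (S / S).filter (fun c => (S.card : ℝ) ≤ 2 * M * N c), (N c : ℝ) ≤
        B.card * S.card := by
      calc _ ≤ ∑ c ∈ B, (S.card : ℝ) :=
            Finset.sum_le_sum fun c _ => by exact_mod_cast hNle c
        _ = B.card * S.card := by rw [Finset.sum_const, nsmul_eq_mul]
    have h4 : ∑ c ∈ (S / S).filter (fun c => ¬ (S.card : ℝ) ≤ 2 * M * N c), (N c : ℝ) ≤
        (S.card : ℝ) * S.card / 2 := by
      calc _ ≤ ∑ c ∈ (S / S).filter (fun c => ¬ (S.card : ℝ) ≤ 2 * M * N c),
            (S.card : ℝ) / (2 * M) := by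
            refine Finset.sum_le_sum fun c hc => ?_
            have := (Finset.mem_filter.mp hc).2
            push Not at this
            rw [le_div_iff₀ (by positivity)]
            linarith
        _ = (((S / S).filter (fun c => ¬ (S.card : ℝ) ≤ 2 * M * N c)).card : ℝ) *
            ((S.card : ℝ) / (2 * M)) := by rw [Finset.sum_const, nsmul_eq_mul]
        _ ≤ ((S / S).card : ℝ) * ((S.card : ℝ) / (2 * M)) := by
            apply mul_le_mul_of_nonneg_right _ (by positivity)
            exact_mod_cast Finset.card_filter_le _ _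
        _ ≤ (M * S.card) * ((S.card : ℝ) / (2 * M)) :=
            mul_le_mul_of_nonneg_right hmul (by positivity)
        _ = (S.card : ℝ) * S.card / 2 := by field_simp
    have h5 : (S.card : ℝ) * S.card ≤ 2 * B.card * S.card := by nlinarith
    exact le_of_mul_le_mul_right h5 hSc
  refine ⟨B, hBS, fun c hc => (Finset.mem_filter.mp hc).2, fun c hc => ?_⟩
  have hNc : (S.card : ℝ) ≤ 2 * M * N c := (Finset.mem_filter.mp hc).2
  -- the sets
  set V := vl S with hV
  let W : Finset (ZMod n) := V.image (fun v => (c : ZMod n) * v)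
  let U : Finset (ZMod n) := (S.filter (fun s => c * s ∈ S)).image
    (fun s : (ZMod n)ˣ => (c : ZMod n) * (s : ZMod n))
  have hVc : V.card = S.card := Finset.card_image_of_injective _ Units.val_injective
  have hVne : V.Nonempty := hS.image _
  have hUc : U.card = N c := Finset.card_image_of_injective _ fun s s' h =>
    Units.val_injective (c.isUnit.mul_left_cancel h)
  have hUV : U ⊆ V := by
    intro x hx
    obtain ⟨s, hs, rfl⟩ := Finset.mem_image.mp hx
    exact Finset.mem_image.mpr ⟨c * s, (Finset.mem_filter.mp hs).2, by push_cast; rfl⟩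
  have hUW : U ⊆ W := by
    intro x hx
    obtain ⟨s, hs, rfl⟩ := Finset.mem_image.mp hx
    exact Finset.mem_image.mpr ⟨(s : ZMod n),
      Finset.mem_image.mpr ⟨s, (Finset.mem_filter.mp hs).1, rfl⟩, rfl⟩
  have hWW : (W - W).card = (V - V).card := by
    have e : W - W = (V - V).image (fun v => (c : ZMod n) * v) := by
      ext x
      simp only [Finset.mem_sub, Finset.mem_image, W]
      constructor
      · rintro ⟨_, ⟨v, hv, rfl⟩, _, ⟨v', hv', rfl⟩, rfl⟩
        exact ⟨v - v', ⟨v, hv, v', hv', rfl⟩, by ring⟩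
      · rintro ⟨_, ⟨v, hv, v', hv', rfl⟩, rfl⟩
        exact ⟨_, ⟨v, hv, rfl⟩, _, ⟨v', hv', rfl⟩, by ring⟩
    rw [e]
    exact Finset.card_image_of_injective _ fun v v' h => c.isUnit.mul_left_cancel h
  have htri := Finset.ruzsa_triangle_inequality_sub_sub_sub V U W
  have h1 : (V - U).card ≤ (V - V).card := Finset.card_le_card (Finset.sub_subset_sub_left hUV)
  have h2 : (W - U).card ≤ (V - V).card := by
    rw [← hWW]
    exact Finset.card_le_card (Finset.sub_subset_sub_left hUW)
  have h3 : ((V - W).card : ℝ) * N c ≤ (M * S.card) * (M * S.card) := by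
    have h4 : ((V - W).card : ℝ) * N c ≤ ((V - V).card : ℝ) * (V - V).card := by
      have : (V - W).card * U.card ≤ (V - V).card * (V - V).card :=
        htri.trans (Nat.mul_le_mul h1 h2)
      rw [hUc] at this
      exact_mod_cast this
    exact h4.trans (mul_le_mul hadd hadd (by positivity) (by positivity))
  have h5 : ((V - W).card : ℝ) ≤ 2 * M ^ 3 * S.card := by
    have h6 : ((V - W).card : ℝ) * S.card ≤ (2 * M ^ 3 * S.card) * S.card := by
      calc ((V - W).card : ℝ) * S.card ≤ ((V - W).card : ℝ) * (2 * M * N c) :=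
            mul_le_mul_of_nonneg_left hNc (by positivity)
        _ = 2 * M * (((V - W).card : ℝ) * N c) := by ring
        _ ≤ 2 * M * ((M * S.card) * (M * S.card)) :=
            mul_le_mul_of_nonneg_left h3 (by positivity)
        _ = (2 * M ^ 3 * S.card) * S.card := by ring
    exact le_of_mul_le_mul_right h6 hSc
  have hneg : (W + -V).card = (V - W).card := by
    rw [← Finset.card_neg (W + -V)]
    congr 1
    rw [neg_add, neg_neg, add_comm, ← sub_eq_add_neg]
  obtain ⟨X, -, hX1, hX2⟩ := Finset.ruzsa_covering_add (K := 2 * M ^ 3) (A := W) (B := -V)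
    hVne.neg (by
      rw [hneg, Finset.card_neg, hVc]
      exact h5)
  refine ⟨X, hX1, fun s hs => ?_⟩
  have h7 : (c : ZMod n) * s ∈ W := Finset.mem_image.mpr ⟨s, hs, rfl⟩
  have h8 := hX2 h7
  have e1 : ks V 1 = V := by
    show ({0} : Finset (ZMod n)) + V = V
    rw [Finset.singleton_zero, zero_add]
  have e2 : -V - -V = V - V := by
    ext x
    simp only [Finset.mem_sub, Finset.mem_neg]
    constructor
    · rintro ⟨_, ⟨v, hv, rfl⟩, _, ⟨v', hv', rfl⟩, rfl⟩
      exact ⟨v', hv', v, hv, by ring⟩
    · rintro ⟨v, hv, v', hv', rfl⟩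
      exact ⟨-v', ⟨v', hv', rfl⟩, -v, ⟨v, hv, rfl⟩, by ring⟩
  rw [e1]
  rw [e2] at h8
  exact h8

end Pool.Agent.Helper2.SPR
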